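import Mathlib

set_option autoImplicit false

namespace Pool.Agent.Helper67.FactorGen

/-- `factors L` is the set `F(L)` of factors of words of `L`:
`u ∈ F(L)` iff `x u y ∈ L` for some words `x, y`. -/
def factors {A : Type} (L : Set (FreeMonoid A)) : Set (FreeMonoid A) :=
  {u | ∃ x y : FreeMonoid A, x * u * y ∈ L}

/-- `X` is the minimal generating set of `X*`: the empty word is not in `X` and no element
of `X` is a product of two or more elements of `X`. -/
def IsMinGenSet {A : Type} (X : Set (FreeMonoid A)) : Prop :=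
  1 ∉ X ∧ ∀ l : List (FreeMonoid A), (∀ w ∈ l, w ∈ X) → 2 ≤ l.length → l.prod ∉ X

/-- The submonoid `M` is a maximal submonoid in the language `L` (`M` is `L`-maximal):
`M ⊆ L`, and every submonoid `N` with `M ⊆ N ⊆ L` equals `M`. -/
def IsMaximalIn {A : Type} (M : Submonoid (FreeMonoid A)) (L : Set (FreeMonoid A)) : Prop :=
  (M : Set (FreeMonoid A)) ⊆ L ∧
    ∀ N : Submonoid (FreeMonoid A), M ≤ N → (N : Set (FreeMonoid A)) ⊆ L → N = M

end Pool.Agent.Helper67.FactorGen
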