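import Pool.Agent.Helper67.FactorGenDefs

set_option autoImplicit false

namespace Pool.Agent.Helper67.FactorGen

variable {A : Type} [DecidableEq A] (a b : A)

/-- The word `a^i b a^j`. -/
def gen (i j : ℕ) : FreeMonoid A :=
  FreeMonoid.of a ^ i * FreeMonoid.of b * FreeMonoid.of a ^ j

/-- `{a^i b a^j : i ≤ 2, j ≤ 1}`. -/
def X : Set (FreeMonoid A) := {w | ∃ i j : ℕ, i ≤ 2 ∧ j ≤ 1 ∧ w = gen a b i j}

/-- `{a^i b a^j : i ∈ {0,2}, j ≤ 1}`. -/
def Y : Set (FreeMonoid A) := {w | ∃ i j : ℕ, (i = 0 ∨ i = 2) ∧ j ≤ 1 ∧ w = gen a b i j}

theorem gen_mem_X {i j : ℕ} (hi : i ≤ 2) (hj : j ≤ 1) : gen a b i j ∈ X a b :=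
  ⟨i, j, hi, hj, rfl⟩

theorem gen_mem_Y {i j : ℕ} (hi : i = 0 ∨ i = 2) (hj : j ≤ 1) : gen a b i j ∈ Y a b :=
  ⟨i, j, hi, hj, rfl⟩

/-- Scanner: the state counts the current run of `a`s and dies when it would exceed 3. -/
def scan : ℕ → List A → Option ℕ
  | c, [] => some c
  | c, x :: w => if x = a then (if c < 3 then scan (c + 1) w else none)
      else if x = b then scan 0 w else none

theorem scan_append (u v : List A) : ∀ c : ℕ,
    scan a b c (u ++ v) = (scan a b c u).bind (fun d => scan a b d v) := by
  induction u with
  | nil => intro c; simp [scan]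
  | cons x u ih =>
    intro c
    simp only [List.cons_append, scan]
    split_ifs <;> simp [ih]

theorem scan_mono (w : List A) : ∀ c c' d' : ℕ, c ≤ c' → scan a b c' w = some d' →
    ∃ d, scan a b c w = some d ∧ d ≤ d' := by
  induction w with
  | nil =>
    intro c c' d' h h'
    simp only [scan, Option.some.injEq] at h'
    exact ⟨c, by simp [scan], by omega⟩
  | cons x w ih =>
    intro c c' d' h h'
    simp only [scan] at h' ⊢
    by_cases hx : x = a
    · simp only [hx, if_true] at h' ⊢
      by_cases hc' : c' < 3
      · rw [if_pos hc'] at h'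
        rw [if_pos (show c < 3 by omega)]
        exact ih (c + 1) (c' + 1) d' (by omega) h'
      · rw [if_neg hc'] at h'
        exact absurd h' (by simp)
    · simp only [hx, if_false] at h' ⊢
      by_cases hxb : x = b
      · rw [if_pos hxb] at h' ⊢
        exact ⟨d', h', le_rfl⟩
      · rw [if_neg hxb] at h'
        exact absurd h' (by simp)

theorem toList_gen (i j : ℕ) :
    FreeMonoid.toList (gen a b i j) = List.replicate i a ++ ([b] ++ List.replicate j a) := by
  have h : ∀ n : ℕ, FreeMonoid.toList (FreeMonoid.of a ^ n) = List.replicate n a := by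
    intro n
    induction n with
    | zero => rfl
    | succ n ih =>
      rw [pow_succ', FreeMonoid.toList_mul, ih]
      rfl
  rw [gen, FreeMonoid.toList_mul, FreeMonoid.toList_mul, h, h, List.append_assoc]
  rfl

theorem scan_replicate (c n : ℕ) (h : c + n ≤ 3) :
    scan a b c (List.replicate n a) = some (c + n) := by
  induction n generalizing c with
  | zero => simp [scan]
  | succ n ih =>
    simp only [List.replicate_succ, scan, if_true]
    rw [if_pos (by omega), ih (c + 1) (by omega)]
    congr 1
    omega

theorem scan_gen (hab : a ≠ b) (c i j : ℕ) (h : c + i ≤ 3) (hj : j ≤ 3) :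
    scan a b c (FreeMonoid.toList (gen a b i j)) = some j := by
  rw [toList_gen, scan_append, scan_replicate a b c i h, Option.bind_some, scan_append]
  have : scan a b (c + i) [b] = some 0 := by simp [scan, hab.symm]
  rw [this, Option.bind_some, scan_replicate a b 0 j (by omega)]
  simp

/-- The scanner description of `X*`. -/
def M : Submonoid (FreeMonoid A) where
  carrier := {w | ∃ d, scan a b 1 (FreeMonoid.toList w) = some d ∧ d ≤ 1}
  one_mem' := ⟨1, by simp [scan], le_rfl⟩
  mul_mem' := by
    rintro u v ⟨d, hd, hd1⟩ ⟨e, he, he1⟩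
    rw [Set.mem_ofPred_eq, FreeMonoid.toList_mul, scan_append, hd, Option.bind_some]
    obtain ⟨f, hf, hf1⟩ := scan_mono a b _ d 1 e hd1 he
    exact ⟨f, hf, by omega⟩

theorem mem_M {w : FreeMonoid A} :
    w ∈ M a b ↔ ∃ d, scan a b 1 (FreeMonoid.toList w) = some d ∧ d ≤ 1 := Iff.rfl

theorem gen_mul_of (i j : ℕ) : gen a b i j * FreeMonoid.of a = gen a b i (j + 1) := by
  rw [gen, gen, pow_succ, mul_assoc]

theorem scan_mem_closure_aux (w : List A) : ∀ i c d : ℕ, i ≤ 2 → c ≤ 3 →
    scan a b c w = some d → d ≤ 1 →
    gen a b i c * FreeMonoid.ofList w ∈ Submonoid.closure (X a b) := by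
  induction w with
  | nil =>
    intro i c d hi _ h hd
    simp only [scan, Option.some.injEq] at h
    have : gen a b i c * FreeMonoid.ofList [] = gen a b i c := by
      change gen a b i c * 1 = _
      rw [mul_one]
    rw [this]
    exact Submonoid.subset_closure (gen_mem_X a b hi (by omega))
  | cons x w ih =>
    intro i c d hi hc h hd
    have hcons : FreeMonoid.ofList (x :: w) = FreeMonoid.of x * FreeMonoid.ofList w := rfl
    rw [hcons, ← mul_assoc]
    simp only [scan] at h
    by_cases hx : x = a
    · subst hx
      simp only [if_true] at h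
      by_cases hc3 : c < 3
      · rw [if_pos hc3] at h
        rw [gen_mul_of]
        exact ih i (c + 1) d hi (by omega) h hd
      · rw [if_neg hc3] at h
        exact absurd h (by simp)
    · simp only [hx, if_false] at h
      by_cases hxb : x = b
      · subst hxb
        rw [if_pos rfl] at h
        -- split the run of length `c` as `j + i'`
        obtain ⟨j, i', hj, hi', hc'⟩ : ∃ j i' : ℕ, j ≤ 1 ∧ i' ≤ 2 ∧ c = j + i' := by
          rcases Nat.eq_zero_or_pos c with h0 | h0
          · exact ⟨0, 0, by omega, by omega, by omega⟩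
          · exact ⟨1, c - 1, by omega, by omega, by omega⟩
        have h2 := ih i' 0 d hi' (by omega) h hd
        have h3 : gen a x i c * FreeMonoid.of x * FreeMonoid.ofList w =
            gen a x i j * (gen a x i' 0 * FreeMonoid.ofList w) := by
          rw [gen, gen, gen, hc', pow_add, pow_zero, mul_one]
          simp only [mul_assoc]
        rw [h3]
        exact mul_mem (Submonoid.subset_closure (gen_mem_X a x hi hj)) h2
      · rw [if_neg hxb] at h
        exact absurd h (by simp)

theorem scan_mem_closure (w : List A) : ∀ i d : ℕ, i ≤ 2 → scan a b (1 + i) w = some d →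
    d ≤ 1 → FreeMonoid.of a ^ i * FreeMonoid.ofList w ∈ Submonoid.closure (X a b) := by
  induction w with
  | nil =>
    intro i d _ h hd
    simp only [scan, Option.some.injEq] at h
    have hi : i = 0 := by omega
    subst hi
    have : FreeMonoid.of a ^ 0 * FreeMonoid.ofList [] = (1 : FreeMonoid A) := by
      rw [pow_zero, one_mul]
      rfl
    rw [this]
    exact one_mem _
  | cons x w ih =>
    intro i d hi h hd
    have hcons : FreeMonoid.ofList (x :: w) = FreeMonoid.of x * FreeMonoid.ofList w := rfl
    rw [hcons, ← mul_assoc]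
    simp only [scan] at h
    by_cases hx : x = a
    · subst hx
      simp only [if_true] at h
      by_cases hc3 : 1 + i < 3
      · rw [if_pos hc3] at h
        rw [← pow_succ]
        exact ih (i + 1) d (by omega) (by rwa [← add_assoc]) hd
      · rw [if_neg hc3] at h
        exact absurd h (by simp)
    · simp only [hx, if_false] at h
      by_cases hxb : x = b
      · subst hxb
        rw [if_pos rfl] at h
        have h2 := scan_mem_closure_aux a x w i 0 d hi (by omega) h hd
        rw [gen, pow_zero, mul_one] at h2
        exact h2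
      · rw [if_neg hxb] at h
        exact absurd h (by simp)

theorem closure_X (hab : a ≠ b) : Submonoid.closure (X a b) = M a b := by
  apply le_antisymm
  · rw [Submonoid.closure_le]
    rintro w ⟨i, j, hi, hj, rfl⟩
    exact ⟨j, scan_gen a b hab 1 i j (by omega) (by omega), hj⟩
  · intro w hw
    obtain ⟨d, hd, hd1⟩ := hw
    have h := scan_mem_closure a b (FreeMonoid.toList w) 0 d (by omega) hd hd1
    rw [pow_zero, one_mul, FreeMonoid.ofList_toList] at h
    exact h

theorem count_gen (hab : a ≠ b) (i j : ℕ) :
    (FreeMonoid.toList (gen a b i j)).count b = 1 := by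
  rw [toList_gen]
  simp [List.count_replicate, hab]

theorem isMinGenSet_X (hab : a ≠ b) : IsMinGenSet (X a b) := by
  constructor
  · rintro ⟨i, j, _, _, h⟩
    have h2 := count_gen a b hab i j
    rw [← h] at h2
    simp at h2
  · intro l hl hlen
    rintro ⟨i, j, _, _, h⟩
    have hcount : ∀ l : List (FreeMonoid A), (∀ w ∈ l, w ∈ X a b) →
        (FreeMonoid.toList l.prod).count b = l.length := by
      intro l
      induction l with
      | nil => intro _; simp
      | cons w l ih =>
        intro hl
        obtain ⟨i, j, _, _, hw⟩ := hl w (by simp)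
        rw [List.prod_cons, FreeMonoid.toList_mul, List.count_append, List.length_cons,
          ih (fun v hv => hl v (List.mem_cons_of_mem w hv)), hw, count_gen a b hab]
        omega
    have h1 := hcount l hl
    rw [h, count_gen a b hab] at h1
    omega

theorem scan_of_mem_factors {w : FreeMonoid A}
    (h : w ∈ factors (M a b : Set (FreeMonoid A))) :
    ∃ d, scan a b 0 (FreeMonoid.toList w) = some d := by
  obtain ⟨x, y, d, hd, _⟩ := h
  rw [FreeMonoid.toList_mul, FreeMonoid.toList_mul, scan_append, scan_append] at hd
  cases hx : scan a b 1 (FreeMonoid.toList x) with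
  | none => simp [hx] at hd
  | some c =>
    rw [hx] at hd
    simp only [Option.bind_some] at hd
    cases hw : scan a b c (FreeMonoid.toList w) with
    | none => simp [hw] at hd
    | some e =>
      obtain ⟨f, hf, _⟩ := scan_mono a b _ 0 c e (Nat.zero_le c) hw
      exact ⟨f, hf⟩

theorem isMaximal_M (hab : a ≠ b) : IsMaximalIn (M a b) (factors (M a b : Set (FreeMonoid A))) := by
  refine ⟨?_, ?_⟩
  · intro w hw
    exact ⟨1, 1, by simpa using hw⟩
  · intro N hMN hN
    apply le_antisymm _ hMN
    intro n hn
    have h1 : gen a b 0 1 ∈ N := by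
      apply hMN
      rw [← closure_X a b hab]
      exact Submonoid.subset_closure (gen_mem_X a b (by omega) (by omega))
    have h2 : gen a b 2 0 ∈ N := by
      apply hMN
      rw [← closure_X a b hab]
      exact Submonoid.subset_closure (gen_mem_X a b (by omega) (by omega))
    obtain ⟨d, hd⟩ := scan_of_mem_factors a b (hN (mul_mem (mul_mem h1 hn) h2))
    rw [FreeMonoid.toList_mul, FreeMonoid.toList_mul, scan_append, scan_append,
      scan_gen a b hab 0 0 1 (by omega) (by omega), Option.bind_some] at hd
    cases hw : scan a b 1 (FreeMonoid.toList n) with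
    | none => simp [hw] at hd
    | some e =>
      refine ⟨e, hw, ?_⟩
      rw [hw, Option.bind_some, toList_gen] at hd
      by_contra he
      simp only [List.replicate_succ, List.replicate_zero, List.cons_append, List.nil_append,
        scan, if_true] at hd
      by_cases h3 : e < 3
      · rw [if_pos h3, if_neg (by omega)] at hd
        exact absurd hd (by simp)
      · rw [if_neg h3] at hd
        exact absurd hd (by simp)

theorem key_Y {m : FreeMonoid A} (hm : m ∈ Submonoid.closure (X a b)) :
    m ∈ Submonoid.closure (Y a b) ∨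
      ∃ m' ∈ Submonoid.closure (Y a b), m = FreeMonoid.of a * m' ∧
        FreeMonoid.of a * m ∈ Submonoid.closure (Y a b) := by
  induction hm using Submonoid.closure_induction_left with
  | one => exact Or.inl (one_mem _)
  | mul_left x hx m' _ ih =>
    obtain ⟨i, j, hi, hj, rfl⟩ := hx
    -- a generator `a^k b a^j` with `k ∈ {0, 2}` times `m'` lies in `Y*`
    have key : ∀ k : ℕ, (k = 0 ∨ k = 2) →
        gen a b k j * m' ∈ Submonoid.closure (Y a b) := by
      intro k hk
      rcases ih with h | ⟨m'', hm'', rfl, h2⟩
      · exact mul_mem (Submonoid.subset_closure (gen_mem_Y a b hk hj)) h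
      · rcases Nat.eq_zero_or_pos j with h0 | h0
        · subst h0
          rw [← mul_assoc, gen_mul_of]
          exact mul_mem (Submonoid.subset_closure (gen_mem_Y a b hk (by omega))) hm''
        · have hj1 : j = 1 := by omega
          subst hj1
          have h3 : gen a b k 1 * (FreeMonoid.of a * m'') =
              gen a b k 0 * (FreeMonoid.of a * (FreeMonoid.of a * m'')) := by
            rw [gen, gen, pow_one, pow_zero, mul_one]
            simp only [mul_assoc]
          rw [h3]
          exact mul_mem (Submonoid.subset_closure (gen_mem_Y a b hk (by omega))) h2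
    interval_cases i
    · exact Or.inl (key 0 (Or.inl rfl))
    · right
      refine ⟨gen a b 0 j * m', key 0 (Or.inl rfl), ?_, ?_⟩
      · rw [gen, gen, pow_one, pow_zero, one_mul]
        simp only [mul_assoc]
      · have h3 : FreeMonoid.of a * (gen a b 1 j * m') = gen a b 2 j * m' := by
          rw [gen, gen, pow_one, pow_two]
          simp only [mul_assoc]
        rw [h3]
        exact key 2 (Or.inr rfl)
    · exact Or.inl (key 2 (Or.inr rfl))

theorem Y_subset_X : Y a b ⊆ X a b := by
  rintro w ⟨i, j, hi, hj, rfl⟩
  exact gen_mem_X a b (by omega) hj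

theorem Y_ssubset_X (hab : a ≠ b) : Y a b ⊂ X a b := by
  refine ⟨Y_subset_X a b, ?_⟩
  intro h
  obtain ⟨i, j, hi, hj, hw⟩ := h (gen_mem_X a b (i := 1) (j := 0) (by omega) (by omega))
  have h1 := congrArg FreeMonoid.toList hw
  rw [toList_gen, toList_gen] at h1
  rcases hi with rfl | rfl
  · simp only [List.replicate_succ, List.replicate_zero, List.cons_append,
      List.nil_append, List.cons.injEq] at h1
    exact hab h1.1
  · simp only [List.replicate_succ, List.replicate_zero, List.cons_append,
      List.nil_append, List.cons.injEq] at h1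
    exact hab h1.2.1.symm

theorem factors_eq : factors (Submonoid.closure (Y a b) : Set (FreeMonoid A)) =
    factors (Submonoid.closure (X a b) : Set (FreeMonoid A)) := by
  apply Set.Subset.antisymm
  · rintro w ⟨x, y, h⟩
    exact ⟨x, y, Submonoid.closure_mono (Y_subset_X a b) h⟩
  · rintro w ⟨x, y, h⟩
    rcases key_Y a b h with h' | ⟨_, _, _, h'⟩
    · exact ⟨x, y, h'⟩
    · refine ⟨FreeMonoid.of a * x, y, ?_⟩
      have : FreeMonoid.of a * x * w * y = FreeMonoid.of a * (x * w * y) := by
        simp only [mul_assoc]
      change FreeMonoid.of a * x * w * y ∈ Submonoid.closure (Y a b)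
      rw [this]
      exact h'

theorem finite_X : (X a b).Finite := by
  have : X a b ⊆ (fun p : ℕ × ℕ => gen a b p.1 p.2) '' (Set.Iic 2 ×ˢ Set.Iic 1) := by
    rintro w ⟨i, j, hi, hj, rfl⟩
    exact ⟨(i, j), ⟨hi, hj⟩, rfl⟩
  exact Set.Finite.subset (((Set.finite_Iic 2).prod (Set.finite_Iic 1)).image _) this

theorem main (A : Type) (a b : A) (hab : a ≠ b) :
    ∃ X Y : Set (FreeMonoid A), X.Finite ∧ Y ⊂ X ∧ IsMinGenSet X ∧
      IsMaximalIn (Submonoid.closure X)
        (factors (Submonoid.closure X : Set (FreeMonoid A))) ∧
      factors (Submonoid.closure Y : Set (FreeMonoid A)) =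
        factors (Submonoid.closure X : Set (FreeMonoid A)) := by
  classical
  refine ⟨X a b, Y a b, finite_X a b, Y_ssubset_X a b hab, isMinGenSet_X a b hab, ?_,
    factors_eq a b⟩
  rw [closure_X a b hab]
  exact isMaximal_M a b hab

end Pool.Agent.Helper67.FactorGen
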